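import Pool.Agent.Q182.AnEll

/-!
# Trees and classes of edges with infinite intersections of the stabilizers

`C` is any class of groups with the closure properties `ClosedA C`: the usual closure properties
`ClosedE C` and closure under acylindrical actions on trees. All of them are known for the class of the
groups which satisfy the K- and L-theoretic Farrell–Jones conjecture with additive category
coefficients and finite wreath products; the one on acylindrical actions is a theorem of Knopf.

Let `G` act without inversions on a tree with vertex stabilizers in `C`. At each vertex an equivalence
relation on the edges at this vertex is given, in an invariant way, such that two edges are related if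
their stabilizers have an infinite intersection (the least such relation can be taken). These relations
generate an equivalence relation on the set of all edges. Its classes are subtrees of arbitrary size.

1. If the stabilizers of all classes are in `C` then `G` is in `C`.
2. If every element of `G` which maps an edge to an edge of the same class fixes a vertex, then `G` is
in `C`. So it suffices that the axis of each element without fixed points contains two adjacent edges
in different classes, whose stabilizers then have a finite intersection.

Nothing is assumed on the edge stabilizers themselves, and the action need not be acylindrical. In an
acylindrical action the stabilizers of long paths are finite, with a bound on the length, while here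
paths of every length may have infinite stabilizers.

Outline of the proof. The classes are convex, and two of them have at most one common vertex. Coning
off the classes gives a tree. The points of distance five in this tree have a finite common stabilizer,
since a path of the original tree with an infinite stabilizer is contained in a class. The second part
uses the lemma of Serre on finitely generated groups all of whose elements have fixed points.
-/

set_option autoImplicit false

namespace Pool.Agent.Results.MP_8a3537_gt.EdgeClasses

open Q182.Cyl (ClosedA Est)
open Q182.An (Lkd)

/-- Let `C` be a class of groups with the closure properties `ClosedA C`, let `G` be a group acting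
without inversions on a tree `T` with vertex stabilizers in `C`, and let `R v` be equivalence relations
on the sets of neighbours of the vertices `v`, invariant under `G`, such that `R v w w'` holds if the
stabilizers of the edges `{v, w}` and `{v, w'}` have an infinite intersection. `Lkd T R v w x y` says
that the edges `{v, w}` and `{x, y}` are in the same class of the equivalence relation on the edges
which is generated by these relations.

(1) If for all edges `{v, w}` the subgroup of the elements `g` such that `{g v, g w}` is in the class
of `{v, w}` is in `C`, then `G` is in `C`.

(2) If each `g` in `G` such that `{g v, g w}` is in the class of `{v, w}` for some edge `{v, w}` fixes a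
vertex, then `G` is in `C`. -/
theorem result (C : ∀ (G : Type) [Group G], Prop) (hC : ClosedA C) (G V : Type) [Group G]
    [MulAction G V] (T : SimpleGraph V) (hT : T.IsTree)
    (hadj : ∀ (g : G) (v w : V), T.Adj v w → T.Adj (g • v) (g • w))
    (hinv : ∀ (g : G) (v w : V), T.Adj v w → ¬ (g • v = w ∧ g • w = v))
    (hst : ∀ v : V, C (MulAction.stabilizer G v)) (R : V → V → V → Prop)
    (hrefl : ∀ v w, T.Adj v w → R v w w) (hsymm : ∀ v w w', R v w w' → R v w' w)
    (htrans : ∀ v w w' w'', R v w w' → R v w' w'' → R v w w'')
    (hsmul : ∀ (g : G) v w w', R v w w' → R (g • v) (g • w) (g • w'))
    (hinf : ∀ v w w', T.Adj v w → T.Adj v w' → Infinite ↥(Est G v w ⊓ Est G v w') → R v w w') :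
    ((∀ v w, T.Adj v w → ∀ H : Subgroup G, (∀ g, g ∈ H ↔ Lkd T R v w (g • v) (g • w)) → C H) →
      C G) ∧
    ((∀ (v w : V) (g : G), T.Adj v w → Lkd T R v w (g • v) (g • w) → ∃ u : V, g • u = u) →
      C G) := by
  have hR : Q182.An.Ang G T R := ⟨hrefl, hsymm, htrans, hsmul⟩
  exact ⟨fun h => Q182.An.main_cls hR ⟨hT, hadj, hinv⟩ hC hinf hst
      fun v w hvw => h v w hvw _ fun g => Iff.rfl,
    fun h => Q182.An.main_ell hR ⟨hT, hadj, hinv⟩ hC hinf hst h⟩

end Pool.Agent.Results.MP_8a3537_gt.EdgeClasses
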