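import Pool.Agent.Q184.DF.Summ

/-!
# Extended positive definite forms over integral group rings

Definitions (`Pool.Agent.Q184.DF`): `bar` is the involution `g ↦ g⁻¹` of `ℤΓ`, `adj A` the conjugate
transpose of a matrix `A` over `ℤΓ`, and `herm A x y = ∑ x k * A k l * bar (y l)` the sesquilinear
form `x A y^*` on the rows. `cst C` is the matrix over `ℤΓ` with the integer entries of `C`.
`PD C` says that the integer matrix `C` is symmetric and that `∑ w k * C k l * w l > 0` for all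
integer vectors `w ≠ 0`.
-/

set_option autoImplicit false

namespace Pool.Agent.Results.MP_8a3537_gt.ExtendedRigidity

open Matrix Pool.Agent.Q184.DF

/-- Let `Γ` be any group.

* (1) An isometry over `ℤΓ` between two positive definite forms which are extended from `ℤ` is a
  product `V D W` with `V, W ∈ GL_n(ℤ)` and `D` a diagonal matrix of elements of `Γ`.
* (2) An idempotent matrix over `ℤΓ` which is selfadjoint for a positive definite form extended from
  `ℤ` is a matrix of integers.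
* (3) Every orthogonal summand of a positive definite form extended from `ℤ`, on a free module and
  with free complement, is isometric to a form extended from `ℤ`.
* (4) Over `ℤ[t, t⁻¹]` there is a positive definite unimodular hermitian form of rank two which is
  not an orthogonal summand of a positive definite form extended from `ℤ`. -/
theorem result :
    (∀ (Γ : Type) [Group Γ] (n : ℕ) (C C' : Matrix (Fin n) (Fin n) ℤ), PD C → PD C' →
      ∀ U : (Matrix (Fin n) (Fin n) (MonoidAlgebra ℤ Γ))ˣ,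
      U.val * cst C * adj U.val = cst C' →
      ∃ (V W : (Matrix (Fin n) (Fin n) ℤ)ˣ) (g : Fin n → Γ),
        U.val = cst V.val * Matrix.diagonal (fun k => MonoidAlgebra.single (g k) (1 : ℤ)) *
          cst W.val) ∧
    (∀ (Γ : Type) [Group Γ] (n : ℕ) (C : Matrix (Fin n) (Fin n) ℤ), PD C →
      ∀ E : Matrix (Fin n) (Fin n) (MonoidAlgebra ℤ Γ), E * E = E →
      E * cst C = cst C * adj E → ∃ E0 : Matrix (Fin n) (Fin n) ℤ, E = cst E0) ∧
    (∀ (Γ : Type) [Group Γ] (n m : ℕ) (A : Matrix (Fin n) (Fin n) (MonoidAlgebra ℤ Γ))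
      (A' : Matrix (Fin m) (Fin m) (MonoidAlgebra ℤ Γ))
      (U : (Matrix (Fin n ⊕ Fin m) (Fin n ⊕ Fin m) (MonoidAlgebra ℤ Γ))ˣ)
      (C : Matrix (Fin n ⊕ Fin m) (Fin n ⊕ Fin m) ℤ), (∀ i j, C i j = C j i) →
      (∀ w : Fin n ⊕ Fin m → ℤ, w ≠ 0 → 0 < ∑ k, ∑ l, w k * C k l * w l) →
      U.val * fromBlocks A 0 0 A' * adj U.val = C.map (MonoidAlgebra.single 1) →
      ∃ (V : (Matrix (Fin n) (Fin n) (MonoidAlgebra ℤ Γ))ˣ) (B : Matrix (Fin n) (Fin n) ℤ),
        V.val * A * adj V.val = B.map (MonoidAlgebra.single 1)) ∧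
    (∃ A : Matrix (Fin 2) (Fin 2) (MonoidAlgebra ℤ (Multiplicative ℤ)), adj A = A ∧ IsUnit A ∧
      (∀ x : Fin 2 → MonoidAlgebra ℤ (Multiplicative ℤ), x ≠ 0 → 0 < (herm A x x).coeff 1) ∧
      ∀ (m : ℕ) (A' : Matrix (Fin m) (Fin m) (MonoidAlgebra ℤ (Multiplicative ℤ)))
        (U : (Matrix (Fin 2 ⊕ Fin m) (Fin 2 ⊕ Fin m) (MonoidAlgebra ℤ (Multiplicative ℤ)))ˣ)
        (C : Matrix (Fin 2 ⊕ Fin m) (Fin 2 ⊕ Fin m) ℤ), (∀ i j, C i j = C j i) →
        (∀ w : Fin 2 ⊕ Fin m → ℤ, w ≠ 0 → 0 < ∑ k, ∑ l, w k * C k l * w l) →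
        U.val * fromBlocks A 0 0 A' * adj U.val ≠ C.map (MonoidAlgebra.single 1)) :=
  ⟨fun _ _ _ _ _ hC hC' U hU => isometry_const hC hC' U hU,
    fun _ _ _ _ hC E hE hs => idem_const hC E hE hs,
    fun _ _ _ _ A A' U C hs hC hU => summand_extended A A' U C hs hC hU,
    Ex.A, Ex.adjA, Ex.unitA, Ex.posA,
    fun _ A' U C hs hC hU => Ex.not_extended (summand_extended Ex.A A' U C hs hC hU)⟩

end Pool.Agent.Results.MP_8a3537_gt.ExtendedRigidity
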