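import Pool.Agent.Q27.SE.Main

/-!
# MP_8a3537_gt: embeddings in simple groups inside classes of Farrell–Jones groups

`C` is any class of groups which contains the metabelian groups and has the closure properties
`ClosedA C` (the usual closure properties `ClosedE C` and closure under acylindrical actions on
trees, in the fibered version); all of this is known for the class of the groups which satisfy the
K- and L-theoretic Farrell–Jones conjecture with coefficients and finite wreath products.

Every countable group `G` is a subgroup of a countable simple group `M` which lies in exactly the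
same classes `C` as `G`. The group `M` is torsion-free and divisible if `G` is torsion-free, it is
binate (in particular acyclic), and for all nontrivial `a`, `b` in `M` the element `b` is a product
of three conjugates of `a`, `a` and `a⁻¹`. There is one countable torsion-free group `M` of this
kind such that all torsion-free groups are in `C` if and only if `M` is in `C`.

One step of the construction: for nontrivial `a`, `b` in `G` let `u = a x a x⁻¹` and
`v = b x a x⁻¹` in the free product of `G` and an infinite cyclic group `⟨x⟩`, and adjoin a stable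
letter `t` with `t u t⁻¹ = v`. The elements `u` and `v` are hyperbolic for the action on the
Bass–Serre tree of the free product, whose edge stabilizers are trivial, so that `⟨u⟩` and `⟨v⟩`
have finite index in their commensurators; the action of the HNN extension on its own Bass–Serre
tree is in general not acylindrical.
-/

set_option autoImplicit false

namespace Pool.Agent.Results.MP_8a3537_gt.SimpleEmbedding

open Q182.Cyl (ClosedA)
open Q182.Tow (Binate)
open Q30.FJ (TorsionFree)
open Q27.SE

/-- embeddings for all classes at once -/
theorem embed_all (G : Type) [Group G] [Countable G] :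
    ∃ (M : Type) (_ : Group M) (i : G →* M), Function.Injective i ∧ Countable M ∧
      IsSimpleGroup M ∧ USimple M ∧ Binate M ∧
      (TorsionFree G → TorsionFree M ∧ ∀ (g : M) (n : ℕ), 0 < n → ∃ h : M, h ^ n = g) ∧
      ∀ C : ∀ (G : Type) [Group G], Prop, ClosedA C → Met C → (C M ↔ C G) := by
  obtain ⟨M, _, i, hi, hM, h1, h2, h3, h4⟩ := embed (hull_closedA (G × Multiplicative ℤ))
    (hull_met _) (G × Multiplicative ℤ) (hull_self _)
  have hinj : Function.Injective (i.comp (MonoidHom.inl G (Multiplicative ℤ))) := by
    intro a b hab
    exact congrArg Prod.fst (hi hab)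
  have hnt : Nontrivial M := by
    refine ⟨i (1, Multiplicative.ofAdd 1), i (1, 1), fun h => ?_⟩
    have h5 := congrArg Prod.snd (hi h)
    exact absurd (congrArg Multiplicative.toAdd h5) one_ne_zero
  refine ⟨M, inferInstance, i.comp (MonoidHom.inl G (Multiplicative ℤ)), hinj, h1, h2.simple, h2,
    h3, fun htf => h4 ?_, fun C hC hm => ⟨fun h => ?_, fun h => ?_⟩⟩
  · intro x n hn hx
    have h5 := congrArg Prod.fst hx
    have h6 := congrArg Prod.snd hx
    exact Prod.ext (htf x.1 n hn h5) (Q182.Tow.int_tf x.2 n hn h6)
  · exact hC.base.base.of_injective _ _ _ hinj h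
  · exact hM C hC hm (hC.base.base.prod _ _ h hC.base.base.int)

/-- 1. Every countable group `G` embeds in a countable simple group `M`, in which every `b ≠ 1` is a
product of three conjugates of `a`, `a`, `a⁻¹` for each `a ≠ 1`, which is binate, torsion-free and
divisible if `G` is torsion-free, and which is in the same classes `C` as `G`.

2. There is one such group `M`, torsion-free and divisible, which decides for all torsion-free
groups.

3. There is one such group `M` which decides for all groups. -/
theorem result :
    (∀ (G : Type) [Group G] [Countable G],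
      ∃ (M : Type) (_ : Group M) (i : G →* M), Function.Injective i ∧ Countable M ∧
        IsSimpleGroup M ∧
        (∀ a b : M, a ≠ 1 → b ≠ 1 →
          ∃ r s t : M, b = (r * a * r⁻¹) * (s * a * s⁻¹) * (t * a⁻¹ * t⁻¹)) ∧
        Binate M ∧
        (TorsionFree G → TorsionFree M ∧ ∀ (g : M) (n : ℕ), 0 < n → ∃ h : M, h ^ n = g) ∧
        ∀ C : ∀ (G : Type) [Group G], Prop, ClosedA C →
          (∀ (G : Type) [Group G], derivedSeries G 2 = ⊥ → C G) → (C M ↔ C G)) ∧
    (∃ (M : Type) (_ : Group M), Countable M ∧ IsSimpleGroup M ∧
        (∀ a b : M, a ≠ 1 → b ≠ 1 →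
          ∃ r s t : M, b = (r * a * r⁻¹) * (s * a * s⁻¹) * (t * a⁻¹ * t⁻¹)) ∧
        Binate M ∧ TorsionFree M ∧ (∀ (g : M) (n : ℕ), 0 < n → ∃ h : M, h ^ n = g) ∧
        ∀ C : ∀ (G : Type) [Group G], Prop, ClosedA C →
          (∀ (G : Type) [Group G], derivedSeries G 2 = ⊥ → C G) →
          (C M ↔ ∀ (G : Type) [Group G], TorsionFree G → C G)) ∧
    (∃ (M : Type) (_ : Group M), Countable M ∧ IsSimpleGroup M ∧
        (∀ a b : M, a ≠ 1 → b ≠ 1 →
          ∃ r s t : M, b = (r * a * r⁻¹) * (s * a * s⁻¹) * (t * a⁻¹ * t⁻¹)) ∧
        Binate M ∧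
        ∀ C : ∀ (G : Type) [Group G], Prop, ClosedA C →
          (∀ (G : Type) [Group G], derivedSeries G 2 = ⊥ → C G) →
          (C M ↔ ∀ (G : Type) [Group G], C G)) := by
  refine ⟨fun G _ _ => embed_all G, ?_, ?_⟩
  · obtain ⟨U, _, hU, -, htf, hC⟩ := Q27.TG.one_tf_mit
    obtain ⟨M, _, i, hi, h1, h2, h3, h4, h5, h6⟩ := embed_all U
    exact ⟨M, inferInstance, h1, h2, h3, h4, (h5 htf).1, (h5 htf).2, fun C hA hm =>
      (h6 C hA hm).trans (hC C (Q27.TG.SubColim.of_closed hA.base.base))⟩
  · obtain ⟨U, _, hU, -, hC⟩ := Q27.TG.one_all_mit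
    obtain ⟨M, _, i, hi, h1, h2, h3, h4, h5, h6⟩ := embed_all U
    exact ⟨M, inferInstance, h1, h2, h3, h4, fun C hA hm =>
      (h6 C hA hm).trans (hC C (Q27.TG.SubColim.of_closed hA.base.base))⟩

end Pool.Agent.Results.MP_8a3537_gt.SimpleEmbedding
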