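import Pool.Agent.Q251.LG.Win
import Pool.Agent.Q175.LG.Fm

/-!
# Quadratic Poincaré complexes over group rings of rings with involution in a window above `3 / √2`

`R` is any ring with involution and `Γ` a group without elements of order two, or `2` is invertible in
`R` and `Γ` is any group. If the symmetrised support of the boundary operator of the mapping cone of the
duality map of a quadratic Poincaré complex over `RΓ` is the support of an integral matrix whose norm is
at most `3 / √2` plus a number which is exponentially small in the rank of the complex, or in the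
inverse of the square root of the spectral gap of the matrix, then the complex is a sum of quadratic
Poincaré complexes induced from virtually cyclic subgroups, cyclic ones if `Γ` is torsion-free.
-/

set_option autoImplicit false

namespace Pool.Agent.Results.MP_8a3537_gt.SupportWindow

open Matrix TH57.Thr TH6.LF TH6.PF TH6.CX TH6.CR
open Pool.Agent.Q181.LG (Gapped)

variable {R : Type} [Ring R] [StarRing R] {Γ : Type} [Group Γ] {ι : Type} [Fintype ι]
  [DecidableEq ι]

/-- The support of the integral matrix `A` is the symmetrised support of the boundary operator of the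
mapping cone of the duality map: `A p q` has a nonzero coefficient at `g` if and only if the entry
`p q` of the boundary operator has one at `g` or its entry `q p` has one at `g⁻¹`. -/
def ConeSupport (w : Γ →* ℤˣ) (deg : ι → ℕ) (n : ℕ) (d : Matrix ι ι (MonoidAlgebra R Γ))
    (ψ : ℕ → Matrix ι ι (MonoidAlgebra R Γ)) (A : Matrix (ι ⊕ ι) (ι ⊕ ι) (MonoidAlgebra ℤ Γ)) :
    Prop :=
  ∀ p q g, (A p q).coeff g ≠ 0 ↔
    ((cone w deg n d ψ p q).coeff g ≠ 0 ∨ (cone w deg n d ψ q p).coeff g⁻¹ ≠ 0)

/-- The norm of `A` is at most `3 / √2` plus a number which is exponentially small in the rank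
`card ι` of the complex or in the inverse of the square root of the spectral gap of `A`. -/
def Window (A : Matrix (ι ⊕ ι) (ι ⊕ ι) (MonoidAlgebra ℤ Γ)) : Prop :=
  NormLE A (3 / Real.sqrt 2 + (1 / 2) ^ (2 * Fintype.card ι + 30)) ∨
    ∃ K : ℕ, Gapped A ((K : ℝ) ^ 2) ∧ NormLE A (3 / Real.sqrt 2 + (1 / 2) ^ (16 * K + 31))

/-- The subgroup `C` is virtually cyclic, and cyclic if `Γ` is torsion-free. -/
def Good (C : Subgroup Γ) : Prop :=
  IsVC C ∧ ((∀ g : Γ, ∀ n : ℕ, 0 < n → g ^ n = 1 → g = 1) → IsCyclic C)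

/-- After a change of the basis by group elements `u i` and up to the boundary of `χ` the quadratic
Poincaré complex is the sum of quadratic Poincaré complexes (`ψ'`, with contraction `t` of the cone)
over the group rings of good subgroups `C b`. -/
def Splits (w : Γ →* ℤˣ) (deg : ι → ℕ) (n : ℕ) (d : Matrix ι ι (MonoidAlgebra R Γ))
    (ψ : ℕ → Matrix ι ι (MonoidAlgebra R Γ)) : Prop :=
  ∃ (ρ : ι → ι ⊕ ι) (u : ι → Γ) (C : ι ⊕ ι → Subgroup Γ)
    (ψ' χ : ℕ → Matrix ι ι (MonoidAlgebra R Γ)),
    (∀ b, Good (C b)) ∧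
    InBlocks ρ C ((dmU R u).val * d * (dmU R u)⁻¹.val) ∧
    (∀ k, InBlocks ρ C (ψ' k)) ∧
    IsQuadratic w deg n ((dmU R u).val * d * (dmU R u)⁻¹.val) ψ' ∧
    (∃ t, IsCt (coneDeg deg n)
        (cone w deg n ((dmU R u).val * d * (dmU R u)⁻¹.val) ψ') t ∧
      InBlocks (Sum.elim ρ ρ) C t) ∧
    (∀ k i j, χ k i j ≠ 0 → deg i + deg j + k = n + 1) ∧
    ∀ k, sadj w (dmU R u)⁻¹.val * ψ k * (dmU R u)⁻¹.val
      = ψ' k + qbd w deg n ((dmU R u).val * d * (dmU R u)⁻¹.val) χ k

theorem symPat_support (w : Γ →* ℤˣ) (deg : ι → ℕ) (n : ℕ) (d : Matrix ι ι (MonoidAlgebra R Γ))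
    (ψ : ℕ → Matrix ι ι (MonoidAlgebra R Γ)) :
    ConeSupport w deg n d ψ (symPat (cone w deg n d ψ)) := by
  intro p q g
  rw [coeff_symPat]
  by_cases h1 : (cone w deg n d ψ p q).coeff g = 0
  · rw [h1, ind_zero, zero_add, ind_ne]
    simp
  · rw [ind_of_ne h1]
    constructor
    · intro _; exact Or.inl h1
    · intro _
      by_cases h2 : (cone w deg n d ψ q p).coeff g⁻¹ = 0
      · rw [h2, ind_zero]; norm_num
      · rw [ind_of_ne h2]; norm_num

theorem cone_vc {w : Γ →* ℤˣ} {deg : ι → ℕ} {n : ℕ} {d : Matrix ι ι (MonoidAlgebra R Γ)}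
    {ψ : ℕ → Matrix ι ι (MonoidAlgebra R Γ)} (h : IsQuadratic w deg n d ψ)
    (A : Matrix (ι ⊕ ι) (ι ⊕ ι) (MonoidAlgebra ℤ Γ)) (hA : ConeSupport w deg n d ψ A)
    (hW : Window A) (b : Vx Γ (ι ⊕ ι) (ι ⊕ ι)) : IsVC (stab A b) := by
  have hb : IsBd (coneDeg deg n) (cone w deg n d ψ) := cone_boundary h
  rcases hW with h1 | ⟨K, hK, h1⟩
  · refine Pool.Agent.Q251.LG.vc_par A (fun p => Even (coneDeg deg n p)) ?_ (Fintype.card ι)
      (by rw [Fintype.card_sum]; ring) h1 b
    intro p q hne
    obtain ⟨g, hg⟩ : ∃ g, (A p q).coeff g ≠ 0 := by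
      by_contra hcon
      push Not at hcon
      apply hne
      ext g
      exact hcon g
    rcases (hA p q g).1 hg with h3 | h3
    · have h4 : cone w deg n d ψ p q ≠ 0 := fun h0 => h3 (by rw [h0]; rfl)
      rw [hb.degree p q h4, Int.even_add_one]
    · have h4 : cone w deg n d ψ q p ≠ 0 := fun h0 => h3 (by rw [h0]; rfl)
      rw [hb.degree q p h4, Int.even_add_one, not_not]
  · exact Pool.Agent.Q181.LR.stab_vc_of A b _ (Pool.Agent.Q26.LG.t_notri
      Pool.Agent.Q190.LG.t_g1 Pool.Agent.Q26.LG.t_tent Γ _ _ A K hK h1 b)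

/-- Let `R` be a ring with involution and `Γ` a group, and suppose that `Γ` has no elements of order two
or that `2` is invertible in `R`. Let `(d, ψ)` be an `n`-dimensional quadratic Poincaré complex over
`RΓ`, with any orientation character `w`, and `A` an integral matrix in the window whose support is the
symmetrised support of the boundary operator of the cone; for example, `A` can be the support pattern of
the boundary operator plus its adjoint. Then the complex splits. -/
theorem result (R : Type) [Ring R] [StarRing R] (Γ : Type) [Group Γ]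
    (hRΓ : (∀ g : Γ, orderOf g ≠ 2) ∨ ∃ a : R, 2 * a = 1) (w : Γ →* ℤˣ)
    (ι : Type) [Fintype ι] [DecidableEq ι] (deg : ι → ℕ) (n : ℕ)
    (d : Matrix ι ι (MonoidAlgebra R Γ)) (ψ : ℕ → Matrix ι ι (MonoidAlgebra R Γ))
    (hψ : IsQuadratic w deg n d ψ) (hP : ∃ t, IsCt (coneDeg deg n) (cone w deg n d ψ) t) :
    ConeSupport w deg n d ψ (symPat (cone w deg n d ψ)) ∧
    ∀ A : Matrix (ι ⊕ ι) (ι ⊕ ι) (MonoidAlgebra ℤ Γ), ConeSupport w deg n d ψ A → Window A →
      Splits w deg n d ψ := by
  refine ⟨symPat_support w deg n d ψ, fun A hA hW => ?_⟩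
  obtain ⟨t, ht⟩ := hP
  have hH : ∃ H, Halver (ι := ι) (R := R) w H := by
    rcases hRΓ with h | ⟨a, ha⟩
    · refine ⟨half, half_halver w fun g hg => ?_⟩
      by_contra h1
      apply h g
      rw [orderOf_eq_iff two_pos]
      constructor
      · rw [pow_two]
        nth_rewrite 2 [hg]
        exact mul_inv_cancel g
      · intro m hm hm0 h3
        have h4 : m = 1 := by omega
        rw [h4, pow_one] at h3
        exact h1 h3
    · exact ⟨lsc a, two_halver w a ha⟩
  obtain ⟨H, hH⟩ := hH
  obtain ⟨ρ, u, C, ψ', χ, s, hC, h1, h2, h3, h4, h5, h6, h7⟩ :=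
    Q251.q_main' hH hψ t ht A (fun i j g hne => by
        rw [hA] at hne ⊢
        rw [inv_inv]
        exact hne.symm) (fun i j g hne => by
        rw [hA] at hne ⊢
        exact cone_swap hψ i j g hne) (fun i j g hne => by
        rw [hA]
        exact Or.inl hne) (cone_vc hψ A hA hW)
  refine ⟨ρ, u, C, ψ', χ, fun b => ⟨hC b, fun htf => ?_⟩, h1, h2, h3, ⟨s, h4, h5⟩, h6, h7⟩
  obtain ⟨g, hg⟩ := hC b
  exact isCyclic_of_finiteIndex (fun x k hk hx => Subtype.ext
    (htf x.1 k hk (by simpa using congrArg Subtype.val hx))) (Subgroup.zpowers g) inferInstance hg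

end Pool.Agent.Results.MP_8a3537_gt.SupportWindow
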